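import Pool.Agent.H95.GY.Facts

/-!
# Existence of the curves on irrational scrolls

If `(d, g)` is above the threshold and satisfies the numerical condition `Irrational` then a
smooth nondegenerate curve of degree `d` and genus `g` exists in `P^n`.
-/

namespace Pool.Agent.H82.GY

open Pool.Agent.H95.GN (G thr)
open Pool.Agent.H95.GY

/-- `a` is large. -/
theorem large_a (M d g s p a : ℤ) (hM : 0 ≤ M) (hd : 1 ≤ d) (hs0 : 0 ≤ s) (hs : s ≤ M)
    (hp0 : 0 ≤ p) (hp : p ≤ M) (ha0 : 0 ≤ a)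
    (hg : d ^ 2 + 40 * (M + 1) ^ 3 * d ≤ 2 * M * g)
    (hgen : 2 * g - 2 = 2 * a * d - a ^ 2 * s - 2 * d + (s + 2 * p - 2) * a) :
    2 * p < a := by
  by_contra hcon
  have ha : a ≤ 2 * M := by linarith
  have h1 : a * d ≤ 2 * M * d := mul_le_mul_of_nonneg_right ha (by linarith)
  have h2 : a * s ≤ 2 * M * M :=
    mul_le_mul ha hs hs0 (by linarith)
  have h3 : a * p ≤ 2 * M * M :=
    mul_le_mul ha hp hp0 (by linarith)
  have h4 : 0 ≤ a ^ 2 * s := by positivity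
  have h5 : 2 * g ≤ 2 + 4 * M * d + 6 * M * M := by linarith
  have h6 : M * (2 * g) ≤ M * (2 + 4 * M * d + 6 * M * M) := mul_le_mul_of_nonneg_left h5 hM
  have h7 : (2 * M + 6 * M ^ 3) * 1 ≤ (2 * M + 6 * M ^ 3) * d :=
    mul_le_mul_of_nonneg_left hd (by positivity)
  have h8 : 0 ≤ (40 * (M + 1) ^ 3 - 4 * M ^ 2 - 2 * M - 6 * M ^ 3 - 1) * d := by
    apply mul_nonneg _ (by linarith)
    have : 40 * (M + 1) ^ 3 - 4 * M ^ 2 - 2 * M - 6 * M ^ 3 - 1 =
        34 * M ^ 3 + 116 * M ^ 2 + 118 * M + 39 := by ring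
    rw [this]
    positivity
  have h9 : 0 < d ^ 2 := by positivity
  have h10 : M * (2 * g) = 2 * M * g := by ring
  have h11 : M * (2 + 4 * M * d + 6 * M * M) = 2 * M + 4 * M ^ 2 * d + 6 * M ^ 3 := by ring
  rw [h10, h11] at h6
  have h12 : (40 * (M + 1) ^ 3 - 4 * M ^ 2 - 2 * M - 6 * M ^ 3 - 1) * d =
    40 * (M + 1) ^ 3 * d - 4 * M ^ 2 * d - (2 * M + 6 * M ^ 3) * d - d := by ring
  rw [h12] at h8
  linarith

/-- the class is positive. -/
theorem large_L (M d g s p a : ℤ) (hM : 0 ≤ M) (hd : 1 ≤ d) (hs0 : 1 ≤ s) (hs : s ≤ M)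
    (hp0 : 0 ≤ p) (hp : p ≤ M) (ha0 : 0 ≤ a)
    (hg : d ^ 2 + 40 * (M + 1) ^ 3 * d ≤ 2 * M * g)
    (hgen : 2 * g - 2 = 2 * a * d - a ^ 2 * s - 2 * d + (s + 2 * p - 2) * a) :
    4 * p - 2 < 2 * d - a * s := by
  by_contra hcon
  have hL : 2 * d - a * s ≤ 4 * p - 2 := by linarith
  have hM1 : 1 ≤ M := hs0.trans hs
  have hgpos : 0 < g := by
    by_contra hg0
    have h1 : 2 * M * g ≤ 0 := mul_nonpos_of_nonneg_of_nonpos (by linarith) (by linarith)
    have h2 : 0 < d ^ 2 + 40 * (M + 1) ^ 3 * d := by positivity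
    linarith
  have hfac : 2 * g - 2 + 2 * d = a * (2 * d - a * s + s + 2 * p - 2) := by
    rw [hgen]; ring
  have hpos : 0 < a * (2 * d - a * s + s + 2 * p - 2) := by
    rw [← hfac]; linarith
  have hpos2 : 0 < 2 * d - a * s + s + 2 * p - 2 := (pos_iff_pos_of_mul_pos hpos).1
    (lt_of_le_of_ne ha0 (by rintro rfl; simp at hpos))
  have has : a ≤ a * s := le_mul_of_one_le_right ha0 hs0
  have ha : a ≤ 2 * d + 3 * M := by linarith
  have h1 : a * (2 * d - a * s + s + 2 * p - 2) ≤ (2 * d + 3 * M) * (7 * M) :=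
    mul_le_mul ha (by linarith) hpos2.le (by linarith)
  have h2 : 2 * g ≤ 14 * M * d + 21 * M * M + 2 := by linarith
  have h6 : M * (2 * g) ≤ M * (14 * M * d + 21 * M * M + 2) := mul_le_mul_of_nonneg_left h2 hM
  have h7 : (2 * M + 21 * M ^ 3) * 1 ≤ (2 * M + 21 * M ^ 3) * d :=
    mul_le_mul_of_nonneg_left hd (by positivity)
  have h8 : 0 ≤ (40 * (M + 1) ^ 3 - 14 * M ^ 2 - 2 * M - 21 * M ^ 3 - 1) * d := by
    apply mul_nonneg _ (by linarith)
    have : 40 * (M + 1) ^ 3 - 14 * M ^ 2 - 2 * M - 21 * M ^ 3 - 1 =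
        19 * M ^ 3 + 106 * M ^ 2 + 118 * M + 39 := by ring
    rw [this]
    positivity
  have h9 : 0 < d ^ 2 := by positivity
  have h10 : M * (2 * g) = 2 * M * g := by ring
  have h11 : M * (14 * M * d + 21 * M * M + 2) = 2 * M + 14 * M ^ 2 * d + 21 * M ^ 3 := by ring
  rw [h10, h11] at h6
  have h12 : (40 * (M + 1) ^ 3 - 14 * M ^ 2 - 2 * M - 21 * M ^ 3 - 1) * d =
    40 * (M + 1) ^ 3 * d - 14 * M ^ 2 * d - (2 * M + 21 * M ^ 3) * d - d := by ring
  rw [h12] at h8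
  linarith

/-- **Existence on irrational scrolls.** -/
theorem irrational_exist (F : Facts) (n : ℕ) (hn : 3 ≤ n) : ∃ C : ℕ, ∀ d ≥ C, ∀ g : ℕ,
    d ^ 2 + C * d ≤ 2 * (thr n + 1) * g → Irrational n d g → G n d g := by
  have hthr : thr n = n + n / 3 - 1 := rfl
  refine ⟨40 * (thr n + 2) ^ 3, fun d hd g hg hI => ?_⟩
  obtain ⟨s, p, a, hs, hp1, hgen, hcase⟩ := hI
  have hd1 : 1 ≤ d := by
    have : 0 < 40 * (thr n + 2) ^ 3 := by positivity
    omega
  have hps : n + p ≤ s + 1 := by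
    rcases hcase with h | h | h
    · omega
    · omega
    · omega
  have hs1 : 1 ≤ s := by omega
  have hpM : p ≤ thr n + 1 := by omega
  have hsM : s ≤ thr n + 1 := by omega
  have hg' : (d : ℤ) ^ 2 + 40 * (((thr n : ℤ) + 1) + 1) ^ 3 * d ≤ 2 * ((thr n : ℤ) + 1) * g := by
    have : ((thr n : ℤ) + 1) + 1 = (thr n : ℤ) + 2 := by ring
    rw [this]
    exact_mod_cast hg
  have hla := large_a (thr n + 1) d g s p a (by positivity) (by exact_mod_cast hd1)
    (by positivity) (by exact_mod_cast hsM) (by positivity) (by exact_mod_cast hpM)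
    (by positivity) hg' hgen
  have hlL := large_L (thr n + 1) d g s p a (by positivity) (by exact_mod_cast hd1)
    (by exact_mod_cast hs1) (by exact_mod_cast hsM) (by positivity) (by exact_mod_cast hpM)
    (by positivity) hg' hgen
  have hla' : 2 * p < a := by exact_mod_cast hla
  rcases hcase with h | ⟨h1, h2, h3⟩ | ⟨h1, h2⟩
  · refine F.project n (s + 1 - 2 * p) d g hn (by omega) ?_
    refine F.semistable s p a (s + 1 - 2 * p) (d - a * s) hp1 (by omega) (by omega) ?_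
      (by omega) d g ?_ hgen
    · linarith
    · ring
  · obtain ⟨e, he⟩ : ∃ e : ℕ, e + s = 2 * n + 2 * p - 2 := ⟨2 * n + 2 * p - 2 - s, by omega⟩
    obtain ⟨k, hk⟩ : ∃ k : ℕ, k + n + p = s + 1 := ⟨s + 1 - n - p, by omega⟩
    have hee : 2 * n + 2 * p - 2 - s = e := by omega
    rw [hee] at h3
    obtain ⟨m, hm⟩ := Nat.exists_eq_add_of_le h3
    have hks : 2 * k + e = s := by omega
    refine F.hyperelliptic k p e a m n (by omega) (by omega) (by omega) (by omega)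
      (fun hk0 => by omega) (by omega) d g hm ?_
    have hks' : (2 * (k : ℤ) + e) = s := by exact_mod_cast hks
    rw [hks']
    exact hgen
  · obtain ⟨m, hm, hm1⟩ : ∃ m : ℕ, d = a * s + m ∧ m ≤ 1 := by
      rcases h2 with h2 | h2
      · exact ⟨0, by omega, by omega⟩
      · exact ⟨1, by omega, le_rfl⟩
    refine F.hyperelliptic 0 p s a m n (by omega) (by omega) (by omega) (by omega)
      (fun _ => hm1) (by omega) d g hm ?_
    simpa using hgen

end Pool.Agent.H82.GY
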