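import Mathlib

/-!
# The numerical part of the classification of curves on irrational scrolls
-/

namespace Pool.Agent.H82.GY

/-- `δ = H · σ`; the numbers of sections force `δ ≤ 2 (s + 1 - n - p)` or `n + 2 p ≤ s + 1`. -/
theorem delta_le (n s p A B : ℕ) (δ : ℤ) (hn : 3 ≤ n) (hst : s ≤ n + n / 3 - 1)
    (hp1 : 1 ≤ p) (hpn : n + p ≤ s + 1) (hδ0 : 0 ≤ δ) (h7 : 2 * δ ≤ s + p) (h8 : n + 1 ≤ A + B)
    (h9 : A = 0 ∨ 2 * ((A : ℤ) - 1) ≤ δ ∨ (A : ℤ) ≤ δ + 1 - p)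
    (h10 : B = 0 ∨ 2 * ((B : ℤ) - 1) ≤ s - δ ∨ (B : ℤ) ≤ s - δ + 1 - p) :
    n + 2 * p ≤ s + 1 ∨ δ ≤ 2 * ((s : ℤ) + 1 - n - p) := by
  rcases h9 with h9 | h9 | h9 <;> rcases h10 with h10 | h10 | h10 <;> omega

/-- the numerical conclusion -/
theorem irr_num (n s d p a A B : ℕ) (δ : ℤ) (hn : 3 ≤ n) (hst : s ≤ n + n / 3 - 1)
    (hp1 : 1 ≤ p) (hpn : n + p ≤ s + 1) (hδ0 : 0 ≤ δ) (h7 : 2 * δ ≤ s + p) (h8 : n + 1 ≤ A + B)
    (h9 : A = 0 ∨ 2 * ((A : ℤ) - 1) ≤ δ ∨ (A : ℤ) ≤ δ + 1 - p)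
    (h10 : B = 0 ∨ 2 * ((B : ℤ) - 1) ≤ s - δ ∨ (B : ℤ) ≤ s - δ + 1 - p)
    (hσ : 0 ≤ (d : ℤ) + (δ - s) * a) (hcon : δ = 0 → (d : ℤ) + (δ - s) * a ≤ 1) :
    n + 2 * p ≤ s + 1 ∨
     (n + p < s + 1 ∧ s + 1 < n + 2 * p ∧ a * (2 * n + 2 * p - 2 - s) ≤ d) ∨
     (s + 1 = n + p ∧ (d = a * s ∨ d = a * s + 1)) := by
  rcases delta_le n s p A B δ hn hst hp1 hpn hδ0 h7 h8 h9 h10 with h | h
  · exact Or.inl h
  · by_cases h1 : n + 2 * p ≤ s + 1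
    · exact Or.inl h1
    · right
      by_cases h2 : s + 1 = n + p
      · right
        refine ⟨h2, ?_⟩
        have hδ : δ = 0 := by omega
        have h3 := hcon hδ
        rw [hδ] at h3 hσ
        have e1 : (d : ℤ) + (0 - s) * a = d - a * s := by ring
        rw [e1] at h3 hσ
        have h4 : (a * s : ℤ) ≤ d := by linarith
        have h5 : (d : ℤ) ≤ a * s + 1 := by linarith
        have h4' : a * s ≤ d := by exact_mod_cast h4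
        have h5' : d ≤ a * s + 1 := by exact_mod_cast h5
        omega
      · left
        refine ⟨by omega, by omega, ?_⟩
        have h3 : ((2 * n + 2 * p - 2 - s : ℕ) : ℤ) ≤ s - δ := by omega
        have h4 : (a : ℤ) * ((2 * n + 2 * p - 2 - s : ℕ) : ℤ) ≤ a * (s - δ) :=
          mul_le_mul_of_nonneg_left h3 (by positivity)
        have h5 : (a : ℤ) * (s - δ) ≤ d := by linarith
        exact_mod_cast h4.trans h5

end Pool.Agent.H82.GY
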