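import Pool.Agent.H95.GY.Basic
import Pool.Agent.H82.GY.ScrollNum

/-!
# Curves on irrational scrolls: the necessary conditions
-/

namespace Pool.Agent.H82.GY

open Pool.Agent.H95.GN (G thr)
open Pool.Agent.H95.GY

/-- **Curves on irrational scrolls**: the genus formula and the conditions on `a = C · F`. -/
theorem scroll_nec (T : Surfaces) (x : T.X) (H C F σ : T.Pic x) (n s d g p A B : ℕ)
    (hn : 3 ≤ n) (hH : H ∈ T.Nef x) (hs : T.dot x H H = s) (hs0 : 0 < s) (hst : s ≤ thr n)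
    (hh0 : n + 1 ≤ T.h0 x H) (hC : C ∈ T.Cur x) (hd : T.dot x H C = d)
    (hg : T.dot x C C + T.dot x (T.K x) C = 2 * (g : ℤ) - 2)
    (hcon : ∀ D ∈ T.Cur x, T.dot x H D = 0 → T.dot x C D ≤ 1) (hsd : s ^ 2 < d) (hp1 : 1 ≤ p)
    (hpn : (p : ℤ) ≤ s + 1 - n) (hF : F ∈ T.Nef x) (hσ : σ ∈ T.Cur x)
    (hdat : ScrollData T x H F σ p A B) : Irrational n d g := by
  obtain ⟨h1, h2, h3, h4, h5, h6, h7, h8, h9, h10⟩ := hdat
  obtain ⟨a, b, hab⟩ := h4 C
  obtain ⟨a', b', hab'⟩ := h4 σ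
  -- `a = C · F`
  have hCF : T.dot x C F = a := by rw [hab F, h1, h2]; ring
  have ha0 : 0 ≤ a := by
    have := T.nef_cur x F hF C hC
    rw [T.dot_comm, hCF] at this
    exact this
  have hHC : (d : ℤ) = a * s + b := by
    have e := hab H
    rw [T.dot_comm x C H, hd, hs, T.dot_comm x F H, h1] at e
    linarith
  have hCC : T.dot x C C = a * d + b * a := by
    have e := hab C
    rw [hd, T.dot_comm x F C, hCF] at e
    exact e
  have hKH : T.dot x (T.K x) H = 2 * (p : ℤ) - 2 - s := by rw [h5, hs]; ring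
  have hKC : T.dot x (T.K x) C = a * (2 * (p : ℤ) - 2 - s) - 2 * b := by
    rw [T.dot_comm, hab (T.K x), T.dot_comm x H, T.dot_comm x F, hKH, h3]
    ring
  -- `σ`
  have hσF : a' = 1 := by
    have e := hab' F
    rw [h6, h1, h2] at e
    linarith
  set δ : ℤ := T.dot x H σ with hδ
  have hb' : b' = δ - s := by
    have e := hab' H
    rw [T.dot_comm x σ H, ← hδ, hs, T.dot_comm x F H, h1, hσF] at e
    linarith
  have hCσ : T.dot x C σ = d + (δ - s) * a := by
    rw [T.dot_comm, hab' C, hσF, hb', hd, T.dot_comm x F C, hCF]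
    ring
  have hδ0 : 0 ≤ δ := T.nef_cur x H hH σ hσ
  rw [hs] at h7 h10
  have hpn' : n + p ≤ s + 1 := by omega
  have hne : C ≠ σ := by
    intro he
    have e : (d : ℤ) = δ := by rw [← hd, he, hδ]
    have h11 : (d : ℤ) ≤ s := by
      have : 2 * (d : ℤ) ≤ s + p := by rw [e]; exact h7
      omega
    have h12 : (s : ℤ) ≤ (s : ℤ) ^ 2 := by
      have : (1 : ℤ) ≤ s := by exact_mod_cast hs0
      nlinarith
    have h13 : ((s : ℤ) ^ 2) < d := by exact_mod_cast hsd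
    linarith
  have hnn : 0 ≤ (d : ℤ) + (δ - s) * a := by
    rw [← hCσ]
    exact T.cur_cur x C hC σ hσ hne
  have hc1 : δ = 0 → (d : ℤ) + (δ - s) * a ≤ 1 := by
    intro h0
    rw [← hCσ]
    exact hcon σ hσ h0
  obtain ⟨α, rfl⟩ : ∃ α : ℕ, a = α := ⟨a.toNat, (Int.toNat_of_nonneg ha0).symm⟩
  refine ⟨s, p, α, hst, hp1, ?_, ?_⟩
  · rw [← hg, hCC, hKC]
    have : b = d - α * s := by linarith
    rw [this]
    ring
  · exact irr_num n s d p α A B δ hn hst hp1 hpn' hδ0 h7 (hh0.trans h8) h9 h10 hnn hc1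

end Pool.Agent.H82.GY
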